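import Pool.Agent.Helper74.FN.Defs

/-!
# Project FN, piece N5: numerics of the cross sums
-/

set_option autoImplicit false
set_option linter.unusedVariables false

namespace Pool.Agent.Helper14.FN

open Finset
open Pool.Agent.Helper53.WR
open Pool.Agent.Helper48.FB (win crossF Cs Fs)
open Pool.Agent.Helper74.FN

/-- the lower bound for the first window index -/
theorem log_ge {A U q n d : ℕ} (hU : 40 ≤ U) (hq0 : 0 < q) (hq2 : q ≤ 2 ^ (A + 1))
    (hd : Nat.log 2 n = d + (4 * A + U - 20)) (hd27 : 27 ≤ d) :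
    d + U - 25 ≤ Nat.log 2 (n / q ^ 4 - (514 + 2 * 2 ^ (U - 20) + 2 ^ U)) := by
  have hn : n ≠ 0 := by
    rintro rfl
    rw [Nat.log_zero_right] at hd
    omega
  have h1 : 2 ^ (d + (4 * A + U - 20)) ≤ n := by
    rw [← hd]
    exact Nat.pow_log_le_self 2 hn
  have h2 : q ^ 4 ≤ 2 ^ (4 * A + 4) := by
    calc q ^ 4 ≤ (2 ^ (A + 1)) ^ 4 := Nat.pow_le_pow_left hq2 4
      _ = 2 ^ (4 * A + 4) := by rw [← pow_mul]; congr 1; ring
  have h3 : 2 ^ (d + U - 24) ≤ n / q ^ 4 := by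
    rw [Nat.le_div_iff_mul_le (pow_pos hq0 4)]
    calc 2 ^ (d + U - 24) * q ^ 4 ≤ 2 ^ (d + U - 24) * 2 ^ (4 * A + 4) :=
          Nat.mul_le_mul_left _ h2
      _ = 2 ^ (d + (4 * A + U - 20)) := by rw [← pow_add]; congr 1; omega
      _ ≤ n := h1
  have h4 : 514 ≤ 2 ^ (U - 20) := by
    calc 514 ≤ 2 ^ 20 := by norm_num
      _ ≤ 2 ^ (U - 20) := Nat.pow_le_pow_right (by norm_num) (by omega)
  have h5 : 514 + 2 * 2 ^ (U - 20) + 2 ^ U ≤ 2 ^ (d + U - 25) := by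
    have e1 : 2 ^ U = 2 ^ 20 * 2 ^ (U - 20) := by rw [← pow_add]; congr 1; omega
    have e2 : 2 ^ (U + 1) = 2 ^ U * 2 := pow_succ 2 U
    have e3 : 2 ^ (U + 1) ≤ 2 ^ (d + U - 25) := Nat.pow_le_pow_right (by norm_num) (by omega)
    omega
  have h6 : 2 ^ (d + U - 24) = 2 ^ (d + U - 25) * 2 := by
    rw [← pow_succ]; congr 1; omega
  apply Nat.le_log_of_pow_le (by norm_num)
  omega

/-- the upper bound for the first window index -/
theorem log_le {A q n e c : ℕ} (hq1 : 2 ^ A < q) (hn : n < 2 ^ (4 * A + e)) :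
    Nat.log 2 (n / q ^ 4 - c) ≤ e := by
  have h1 : 2 ^ (4 * A) ≤ q ^ 4 := by
    calc 2 ^ (4 * A) = (2 ^ A) ^ 4 := by rw [← pow_mul]; congr 1; ring
      _ ≤ q ^ 4 := Nat.pow_le_pow_left hq1.le 4
  have h2 : n / q ^ 4 < 2 ^ e := by
    rw [Nat.div_lt_iff_lt_mul (pow_pos (lt_of_le_of_lt (Nat.zero_le _) hq1) 4)]
    calc n < 2 ^ (4 * A + e) := hn
      _ = 2 ^ e * 2 ^ (4 * A) := by rw [← pow_add]; congr 1; ring
      _ ≤ 2 ^ e * q ^ 4 := Nat.mul_le_mul_left _ h1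
  calc Nat.log 2 (n / q ^ 4 - c) ≤ Nat.log 2 (2 ^ e) := Nat.log_mono_right ((Nat.sub_le _ _).trans h2.le)
    _ = e := Nat.log_pow (by norm_num) e

/-- the final inequality -/
theorem final_real {a e r d t : ℕ} {x : ℝ} (hr : 1 ≤ r) (ht : t = 44 * a / (r + d) + 1)
    (he : e + 12 + 2 * a + 4 ≤ 22 * a) (hx : x ≤ a) :
    ((2 ^ e : ℕ) : ℝ) * 4096 * (Real.exp x / (2 ^ (r + d / 2)) ^ t) < 1 / 8 := by
  have h1 : Real.exp x ≤ 2 ^ (2 * a) := by
    calc Real.exp x ≤ Real.exp (a : ℝ) := Real.exp_le_exp.mpr hx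
      _ = Real.exp 1 ^ a := by rw [← Real.exp_nat_mul, mul_one]
      _ ≤ 4 ^ a := by
          apply pow_le_pow_left₀ (Real.exp_pos 1).le
          linarith [Real.exp_one_lt_three]
      _ = 2 ^ (2 * a) := by rw [pow_mul]; norm_num
  have h2 : 22 * a ≤ (r + d / 2) * t := by
    have g1 : 44 * a < (r + d) * (44 * a / (r + d) + 1) := Nat.lt_mul_div_succ _ (by omega)
    rw [← ht] at g1
    have g2 : r + d ≤ 2 * (r + d / 2) := by omega
    have g3 : (r + d) * t ≤ 2 * (r + d / 2) * t := Nat.mul_le_mul_right _ g2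
    have g4 : 2 * (r + d / 2) * t = 2 * ((r + d / 2) * t) := by ring
    omega
  have h3 : (2 : ℝ) ^ (22 * a) ≤ (2 ^ (r + d / 2)) ^ t := by
    rw [← pow_mul]
    exact pow_le_pow_right₀ (by norm_num) h2
  have h4 : Real.exp x / (2 ^ (r + d / 2)) ^ t ≤ 2 ^ (2 * a) / 2 ^ (22 * a) := by
    apply div_le_div₀ (by positivity) h1 (by positivity) h3
  have h5 : ((2 ^ e : ℕ) : ℝ) * 4096 = 2 ^ (e + 12) := by
    push_cast
    rw [pow_add]
    norm_num
  rw [h5]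
  calc (2 : ℝ) ^ (e + 12) * (Real.exp x / (2 ^ (r + d / 2)) ^ t)
      ≤ 2 ^ (e + 12) * (2 ^ (2 * a) / 2 ^ (22 * a)) :=
        mul_le_mul_of_nonneg_left h4 (by positivity)
    _ = 2 ^ (e + 12 + 2 * a) / 2 ^ (22 * a) := by rw [pow_add]; ring
    _ ≤ 1 / 2 ^ 4 := by
        rw [div_le_div_iff₀ (by positivity) (by positivity), one_mul, ← pow_add]
        exact pow_le_pow_right₀ (by norm_num) he
    _ < 1 / 8 := by norm_num

/-- FN-N5 (numerics of the cross sums). -/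
theorem cross_num {a u b w r c : ℕ → ℕ} (h : NTow a u b w r c) (k : ℕ) {q : ℕ}
    (hq1 : 2 ^ a k < q) (hq2 : q ≤ 2 ^ (a k + 1)) (T : Finset ℕ)
    (hT : ∀ z z', z ≤ z' → (win T z' (2 ^ s0 u k)).card ≤
      2 ^ (w k + 5 + s0 u k - max (s0 u k) (Nat.log 2 z) / 2))
    (hlt : ∀ x ∈ T, x < 2 ^ laT u k)
    (N : ℕ) (hN : N = 2 ^ (4 * a (k + 1) + 8 * u (k + 1) + 1)) (n : ℕ) (hn : n < N) :
    ∃ W : ℕ, (∀ z, n / q ^ 4 ≤ z + 514 + 2 * 2 ^ s0 u k + 2 ^ (8 * u k) →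
        (win T z (2 ^ s0 u k)).card ≤ W) ∧
      (N : ℝ) * 4096 * (Real.exp (2 ^ (r k + (Nat.log 2 n - sN a u k) / 2) *
        ((40 : ℝ) * ((2 ^ (4 * u k + b k + 1) : ℕ) : ℝ) * W / ((2 ^ s0 u k : ℕ) : ℝ))) /
        (2 ^ (r k + (Nat.log 2 n - sN a u k) / 2)) ^
          tN (a k) (r k) (Nat.log 2 n - sN a u k)) < 1 / 8 := by
  have hlu := h.lu k
  have hu : 60000 ≤ u k := by omega
  have hr := h.r1 k
  have hau : 2 ^ 42 * u k ≤ a k := by
    have := h.ua k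
    have h1 : u k * 1 ≤ u k * r k := Nat.mul_le_mul_left _ hr
    calc 2 ^ 42 * u k ≤ 2 ^ 42 * (u k * r k) := by omega
      _ ≤ a k := this
  have hcr := h.cr k
  have huu := h.uu k
  have hst := h.step k
  have hS : s0 u k = 8 * u k - 20 := rfl
  have hSN : sN a u k = 4 * a k + 8 * u k - 20 := rfl
  set z0 := n / q ^ 4 - (514 + 2 * 2 ^ s0 u k + 2 ^ (8 * u k)) with hz0
  set d := Nat.log 2 n - sN a u k with hd
  set m := max (s0 u k) (Nat.log 2 z0) with hm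
  have hm1 : s0 u k ≤ m := le_max_left _ _
  have hm2 : Nat.log 2 z0 ≤ m := le_max_right _ _
  have hE : 4 * u k + d / 2 ≤ m / 2 + 23 := by
    by_cases hd27 : d < 27
    · omega
    · have h1 := log_ge (A := a k) (U := 8 * u k) (q := q) (n := n) (d := d) (by omega)
        (by omega) hq2 (by omega) (by omega)
      have h2 : d + 8 * u k - 25 ≤ Nat.log 2 z0 := h1
      omega
  have hF : m / 2 ≤ s0 u k := by
    have h1 : Nat.log 2 z0 ≤ 4 * u k + 8 * u (k + 1) + 1 := by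
      apply log_le (A := a k) hq1
      rw [hN, hst] at hn
      refine lt_of_lt_of_eq hn ?_
      congr 1
      ring
    have h2 : m ≤ max (s0 u k) (4 * u k + 8 * u (k + 1) + 1) := max_le_max_left _ h1
    omega
  refine ⟨2 ^ (w k + 5 + s0 u k - m / 2), fun z hz => hT z0 z (by omega), ?_⟩
  rw [hN]
  refine final_real (a := a k) hr rfl (by omega) ?_
  have key : 2 ^ (r k + d / 2) * (40 * 2 ^ (4 * u k + b k + 1) * 2 ^ (w k + 5 + s0 u k - m / 2)) ≤
      a k * 2 ^ s0 u k := by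
    calc 2 ^ (r k + d / 2) * (40 * 2 ^ (4 * u k + b k + 1) * 2 ^ (w k + 5 + s0 u k - m / 2))
        ≤ 2 ^ (r k + d / 2) * (2 ^ 6 * 2 ^ (4 * u k + b k + 1) *
            2 ^ (w k + 5 + s0 u k - m / 2)) := by
          apply Nat.mul_le_mul_left
          apply Nat.mul_le_mul_right
          apply Nat.mul_le_mul_right
          norm_num
      _ = 2 ^ (r k + d / 2 + (6 + (4 * u k + b k + 1) + (w k + 5 + s0 u k - m / 2))) := by
          rw [← pow_add, ← pow_add, ← pow_add]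
      _ ≤ 2 ^ (r k + b k + w k + 80 + s0 u k) :=
          Nat.pow_le_pow_right (by norm_num) (by omega)
      _ = 2 ^ (r k + b k + w k + 80) * 2 ^ s0 u k := pow_add _ _ _
      _ ≤ a k * 2 ^ s0 u k := Nat.mul_le_mul_right _ hcr
  have key' : (2 : ℝ) ^ (r k + d / 2) * (40 * ((2 ^ (4 * u k + b k + 1) : ℕ) : ℝ) *
      ((2 ^ (w k + 5 + s0 u k - m / 2) : ℕ) : ℝ)) ≤ (a k : ℝ) * ((2 ^ s0 u k : ℕ) : ℝ) := by
    exact_mod_cast key
  rw [← mul_div_assoc, div_le_iff₀ (by positivity)]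
  exact key'

end Pool.Agent.Helper14.FN
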